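import Pool.Agent.Q231.HF.Main

/-!
# Hamiltonian Cycle with a forbidden forest which has two distant hairs in one component

Let `F` be a finite forest, connected or not, with two vertices of degree at least `3` in the same
component at distance at least `6`. Then the Hamiltonian cycle problem on `F`-subgraph-free graphs is
NP-complete, also for graphs of maximum degree at most `3`.

This applies to all disconnected graphs `F` all of whose components are subcubic trees with exactly two
cubic vertices, as soon as in one of the components the distance of the cubic vertices is at least `6`.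
-/

set_option autoImplicit false

namespace Pool.Agent.Results.MP_2e830d_lc.DistantHairs

open Pool.Agent.NPC Pool.Agent.H679R2 Pool.Agent.NPC.H679 Pool.Agent.Y605.HC
  Pool.Agent.Q231.HF Pool.Agent.NPC.Q231HF SimpleGraph

/-- Two vertices of degree at least `3` in the same component at distance at least `6`. -/
def DistantPair {V : Type} (F : SimpleGraph V) : Prop :=
  ∃ a b, F.Reachable a b ∧ 3 ≤ (F.neighborSet a).ncard ∧ 3 ≤ (F.neighborSet b).ncard ∧
    6 ≤ F.dist a b

theorem dist_le_of_mem {V : Type} [DecidableEq V] {F : SimpleGraph V} {c d : V} (p : F.Walk c d)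
    (x y : V) (hx : x ∈ p.support) (hy : y ∈ (p.takeUntil x hx).support) :
    F.dist y x ≤ p.length := by
  refine (dist_le ((p.takeUntil x hx).dropUntil y hy)).trans ?_
  exact ((p.takeUntil x hx).length_dropUntil_le_length hy).trans (p.length_takeUntil_le_length hx)

theorem spread_of_distant {V : Type} {F : SimpleGraph V} (h : DistantPair F) : Spread F := by
  classical
  obtain ⟨a, b, hab, ha, hb, hd⟩ := h
  refine Or.inr ⟨a, fun c d p _ _ hlen => ?_⟩
  by_contra hcon
  push Not at hcon
  have h1 := hcon a (Reachable.refl _) ha
  have h2 := hcon b hab hb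
  have h3 : F.dist a b ≤ p.length := by
    by_cases h4 : a ∈ (p.takeUntil b h2).support
    · exact dist_le_of_mem p b a h2 h4
    · have h5 : a ∈ (p.dropUntil b h2).support := by
        have h6 := h1
        rw [← p.take_spec h2, Walk.mem_support_append_iff] at h6
        exact h6.resolve_left h4
      rw [SimpleGraph.dist_comm]
      refine (dist_le ((p.dropUntil b h2).takeUntil a h5)).trans ?_
      exact ((p.dropUntil b h2).length_takeUntil_le_length h5).trans
        (p.length_dropUntil_le_length h2)
  omega

/-- Let `F` be a finite forest with two vertices of degree at least `3` in one component at distance at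
least `6`. The codes of the `F`-subgraph-free Hamiltonian graphs (of maximum degree at most `3`) are a
language in `NP`, and every language in `NP` is reduced in polynomial time to the Hamiltonian cycle
problem by a function all of whose values are codes of `F`-subgraph-free graphs of maximum degree at
most `3`. -/
theorem result (V : Type) [Finite V] (F : SimpleGraph V) (hF : F.IsAcyclic) (hd : DistantPair F) :
    InNP (lang (fun I : List ℕ × List (ℕ × ℕ) => F.Free (toGraph I) ∧ HasHamCycle I)) ∧
    InNP (lang (fun I : List ℕ × List (ℕ × ℕ) =>
      (MaxDegreeLeThree (toGraph I) ∧ F.Free (toGraph I)) ∧ HasHamCycle I)) ∧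
    ∀ L : Set (List Bool), InNP L → ∃ f : List Bool → List Bool, PolyTime f ∧
      ∀ x, ∃ I : List ℕ × List (ℕ × ℕ), f x = bits I ∧ MaxDegreeLeThree (toGraph I) ∧
        F.Free (toGraph I) ∧ (x ∈ L ↔ HasHamCycle I) := by
  have hfree : F.Free Suns := spread_free hF (spread_of_distant hd)
  refine ⟨?_, ?_, ?_⟩
  · obtain ⟨d, hd, hP⟩ := free_decidable F
    exact inNP_ham hd hP
  · obtain ⟨d, hd, hP⟩ := famdeg_decidable 1 (fun _ => V) (fun _ => F)
    refine inNP_ham hd fun I => ?_
    rw [← hP]
    simp
  · intro L hL
    obtain ⟨f, hf, hcl, h⟩ := hardPr_fam 1 (fun _ => V) (fun _ => F) (fun _ => hfree) L hL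
    exact ⟨fun x => bits (f x), PC.toPolyTime hf,
      fun x => ⟨f x, rfl, (hcl x).1, (hcl x).2 0, h x⟩⟩

end Pool.Agent.Results.MP_2e830d_lc.DistantHairs
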